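import Mathlib

set_option autoImplicit false

namespace Pool.Agent.P.MP_3f2786_lc

/-- Apply a substitution to a pattern: each variable `i` is replaced by the (possibly empty)
word `σ i`, each terminal letter is kept. -/
def subst {V A : Type} (σ : V → List A) (α : List (V ⊕ A)) : List A :=
  α.flatMap (Sum.elim σ fun a => [a])

/-- The E-pattern language (erasing pattern language) of a pattern. -/
def lang {V A : Type} (α : List (V ⊕ A)) : Set (List A) :=
  {w | ∃ σ : V → List A, subst σ α = w}

end Pool.Agent.P.MP_3f2786_lc
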