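import Mathlib

set_option autoImplicit false

namespace Pool.Agent.P.MP_3f2786_lc

/-- A language without a telltale cannot be identified in the limit by any learner. -/
theorem no_learner {W H : Type} [Countable W] (L : H → Set W) (P : H → Prop) (α : H) (hα : P α)
    (hne : (L α).Nonempty)
    (hnt : ∀ T : List W, (∀ w ∈ T, w ∈ L α) →
      ∃ β, P β ∧ (∀ w ∈ T, w ∈ L β) ∧ L β ⊆ L α ∧ L β ≠ L α) :
    ¬ ∃ S : List W → H, ∀ α, P α → ∀ t : ℕ → W, Set.range t = L α →
      ∃ (N : ℕ) (β : H), L β = L α ∧ ∀ n, N ≤ n → S ((List.range n).map t) = β := by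
  rintro ⟨S, hS⟩
  obtain ⟨u, hu⟩ := (Set.to_countable (L α)).exists_eq_range hne
  have huL : ∀ n, u n ∈ L α := fun n => hu ▸ Set.mem_range_self n
  have step : ∀ (s : List W) (n : ℕ), ∃ s' : List W, (∀ w ∈ s, w ∈ L α) →
      (s ++ [u n]) <+: s' ∧ (∀ w ∈ s', w ∈ L α) ∧ L (S s') ≠ L α := by
    intro s n
    by_cases hs : ∀ w ∈ s, w ∈ L α
    swap
    · exact ⟨[], fun h => absurd h hs⟩
    obtain ⟨β, hβ, hT, hsub, hneq⟩ := hnt (s ++ [u n]) (by
      intro w hw
      rcases List.mem_append.1 hw with h | h
      · exact hs w h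
      · rw [List.mem_singleton.1 h]; exact huL n)
    set T := s ++ [u n] with hTdef
    have hβne : (L β).Nonempty := ⟨u n, hT _ (by simp [hTdef])⟩
    obtain ⟨e, he⟩ := (Set.to_countable (L β)).exists_eq_range hβne
    let t' : ℕ → W := fun i => if h : i < T.length then T[i] else e (i - T.length)
    have ht' : Set.range t' = L β := by
      apply Set.Subset.antisymm
      · rintro _ ⟨i, rfl⟩
        simp only [t']
        split_ifs with h
        · exact hT _ (List.getElem_mem h)
        · rw [he]; exact Set.mem_range_self _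
      · rw [he]
        rintro _ ⟨i, rfl⟩
        refine ⟨i + T.length, ?_⟩
        simp [t']
    obtain ⟨N, β', hβ', hN⟩ := hS β hβ t' ht'
    refine ⟨(List.range (max N T.length)).map t', fun _ => ⟨?_, ?_, ?_⟩⟩
    · rw [List.prefix_iff_getElem]
      refine ⟨by simp, fun i hi => ?_⟩
      simp [t', hi]
    · intro w hw
      obtain ⟨i, -, rfl⟩ := List.mem_map.1 hw
      exact hsub (ht' ▸ Set.mem_range_self i)
    · rw [hN _ (le_max_left _ _), hβ']
      exact hneq
  choose F hF using step
  let seq : ℕ → List W := fun n => Nat.rec [] (fun n s => F s n) n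
  have seq_succ : ∀ n, seq (n + 1) = F (seq n) n := fun n => rfl
  have inv : ∀ n, ∀ w ∈ seq n, w ∈ L α := by
    intro n
    induction n with
    | zero => intro w hw; simp [seq] at hw
    | succ n ih => rw [seq_succ]; exact (hF _ n ih).2.1
  have pre : ∀ n, (seq n ++ [u n]) <+: seq (n + 1) := fun n => (hF _ n (inv n)).1
  have mono : ∀ n m, n ≤ m → seq n <+: seq m := by
    intro n m hnm
    induction m, hnm using Nat.le_induction with
    | base => exact List.prefix_rfl
    | succ m _ ih => exact ih.trans ((List.prefix_append _ _).trans (pre m))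
  have len : ∀ n, n ≤ (seq n).length := by
    intro n
    induction n with
    | zero => exact Nat.zero_le _
    | succ n ih =>
      have := (pre n).length_le
      simp only [List.length_append, List.length_singleton] at this
      omega
  let t : ℕ → W := fun i => (seq (i + 1))[i]'(len (i + 1))
  have ht : ∀ n i (hi : i < (seq n).length), t i = (seq n)[i] := by
    intro n i hi
    have h1 := (mono (i + 1) (max n (i + 1)) (le_max_right _ _)).getElem (len (i + 1))
    have h2 := (mono n (max n (i + 1)) (le_max_left _ _)).getElem hi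
    exact h1.trans h2.symm
  have hpre : ∀ n, (List.range (seq n).length).map t = seq n := by
    intro n
    apply List.ext_getElem
    · simp
    · intro i h1 h2
      simp only [List.getElem_map, List.getElem_range]
      exact ht n i h2
  have hrange : Set.range t = L α := by
    apply Set.Subset.antisymm
    · rintro _ ⟨i, rfl⟩
      exact inv (i + 1) _ (List.getElem_mem (len (i + 1)))
    · rw [hu]
      rintro _ ⟨n, rfl⟩
      have hmem : u n ∈ seq (n + 1) := (pre n).subset (by simp)
      obtain ⟨i, hi, hie⟩ := List.getElem_of_mem hmem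
      exact ⟨i, (ht (n + 1) i hi).trans hie⟩
  obtain ⟨N, β, hβ, hN⟩ := hS α hα t hrange
  have h1 := hN (seq (N + 1)).length ((Nat.le_succ N).trans (len (N + 1)))
  rw [hpre (N + 1)] at h1
  have h2 := (hF _ N (inv N)).2.2
  rw [← seq_succ, h1] at h2
  exact h2 hβ

end Pool.Agent.P.MP_3f2786_lc
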