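import Mathlib
import Pool.Agent.P.MP_3f2786_lc.Defs

set_option autoImplicit false

namespace Pool.Agent.P.MP_3f2786_lc

section Words

variable {A : Type}

/-- A marker `d^N c` placed after a short word ending in `c` pins that word. -/
theorem right_pin {c d : A} (hcd : c ≠ d) (K' K₀ f : List A) (N : ℕ) (hN : K₀.length + 1 ≤ N)
    (h : K' ++ (List.replicate N d ++ [c]) ++ f = (K₀ ++ [c]) ++ (List.replicate N d ++ [c])) :
    K' = K₀ ++ [c] := by
  have hlen := congrArg List.length h
  simp only [List.length_append, List.length_replicate, List.length_singleton] at hlen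
  by_cases hK : K'.length = K₀.length + 1
  · rw [List.append_assoc] at h
    exact (List.append_inj h (by simpa using hK)).1
  · exfalso
    have hlt : K'.length ≤ K₀.length := by omega
    have h1 := congrArg (fun l => l[K₀.length]?) h
    simp only [List.append_assoc] at h1
    rw [List.getElem?_append_right hlt, List.getElem?_append_left (by simp; omega),
      List.getElem?_append_right le_rfl, List.getElem?_replicate] at h1
    simp only [Nat.sub_self, List.singleton_append, List.getElem?_cons_zero] at h1
    rw [if_pos (by omega)] at h1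
    exact hcd (Option.some.inj h1).symm

/-- A long marker `c^R` at the start, followed by `d`, cannot be shifted. -/
theorem left_pin {c d : A} (hcd : c ≠ d) (f Z Z₀ : List A) (R : ℕ) (hR : Z₀.length + 1 ≤ R)
    (h : f ++ List.replicate R c ++ Z = List.replicate R c ++ (d :: Z₀)) :
    Z = d :: Z₀ := by
  have hlen := congrArg List.length h
  simp only [List.length_append, List.length_replicate, List.length_cons] at hlen
  by_cases hf : f = []
  · subst hf
    simpa using h
  · exfalso
    have hpos : 0 < f.length := List.length_pos_iff.2 hf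
    have h1 := congrArg (fun l => l[R]?) h
    simp only [List.append_assoc] at h1
    rw [List.getElem?_append_right (by omega), List.getElem?_append_left (by simp; omega),
      List.getElem?_append_right (by simp), List.getElem?_replicate] at h1
    simp only [List.length_replicate, Nat.sub_self, List.getElem?_cons_zero] at h1
    rw [if_pos (by omega)] at h1
    exact hcd (Option.some.inj h1)

/-- The pair of equations that pins the border between two words. -/
theorem pair_pin {c d : A} (hcd : c ≠ d) (P' s' r' e' P₀ r₀ : List A)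
    (h1 : P' ++ r' = (P₀ ++ [c]) ++ (c :: r₀))
    (h2 : P' ++ s' ++ r' ++ e' = (P₀ ++ [c]) ++ [d] ++ (c :: r₀))
    (he : e' = [] ∨ r₀ = []) :
    P' = P₀ ++ [c] ∧ r' = c :: r₀ := by
  rcases List.append_eq_append_iff.1 h1 with ⟨a, ha1, ha2⟩ | ⟨a, ha1, ha2⟩
  · -- `P₀ ++ [c] = P' ++ a`
    rcases List.eq_nil_or_concat a with rfl | ⟨a₀, z, rfl⟩
    · simp only [List.append_nil, List.nil_append] at ha1 ha2
      exact ⟨ha1.symm, ha2⟩
    · exfalso
      rw [List.concat_eq_append] at ha1 ha2
      rw [← List.append_assoc] at ha1
      obtain ⟨hP, hz⟩ := List.append_inj' ha1 rfl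
      have hz' : z = c := by simpa using hz.symm
      subst hz'
      subst hP
      subst ha2
      simp only [List.append_assoc, List.append_cancel_left_eq] at h2
      have hlen := congrArg List.length h2
      simp only [List.length_append, List.length_cons, List.length_nil] at hlen
      rcases he with rfl | rfl
      · simp only [List.append_nil] at h2
        have h3 : (s' ++ a₀ ++ [z]) ++ (z :: r₀) = (a₀ ++ [z] ++ [d]) ++ (z :: r₀) := by
          simpa using h2
        have h4 := List.append_cancel_right h3
        have h5 := (List.append_inj' h4 rfl).2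
        exact hcd (by simpa using h5)
      · rcases e' with _ | ⟨e, e'⟩
        · simp only [List.append_nil] at h2
          have h3 : (s' ++ a₀ ++ [z]) ++ [z] = (a₀ ++ [z] ++ [d]) ++ [z] := by
            simpa using h2
          have h4 := List.append_cancel_right h3
          have h5 := (List.append_inj' h4 rfl).2
          exact hcd (by simpa using h5)
        · have hs : s' = [] := List.length_eq_zero_iff.1 (by simp at hlen; omega)
          subst hs
          simp only [List.nil_append, List.append_cancel_left_eq, List.cons_append,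
            List.cons.injEq, true_and] at h2
          exact hcd h2.1
  · -- `P' = P₀ ++ [c] ++ a`
    rcases a with _ | ⟨z, a⟩
    · simp only [List.append_nil, List.nil_append] at ha1 ha2
      exact ⟨ha1, ha2.symm⟩
    · exfalso
      subst ha1
      simp only [List.cons_append, List.cons.injEq] at ha2
      simp only [List.append_assoc, List.append_cancel_left_eq, List.cons_append,
        List.nil_append, List.cons.injEq, true_and] at h2
      exact hcd (ha2.1.trans h2.1)

theorem split_at (q : A → Prop) : ∀ (l₁ l₂ r₁ r₂ : List A) (t₁ t₂ : A),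
    (∀ a ∈ l₁, ¬ q a) → (∀ a ∈ l₂, ¬ q a) → q t₁ → q t₂ →
    l₁ ++ t₁ :: r₁ = l₂ ++ t₂ :: r₂ → l₁ = l₂ ∧ r₁ = r₂ := by
  intro l₁
  induction l₁ with
  | nil =>
    intro l₂ r₁ r₂ t₁ t₂ _ h₂ ht₁ _ h
    rcases l₂ with _ | ⟨a, l₂⟩
    · simp only [List.nil_append, List.cons.injEq] at h
      exact ⟨rfl, h.2⟩
    · simp only [List.nil_append, List.cons_append, List.cons.injEq] at h
      exact absurd (h.1 ▸ ht₁) (h₂ a (by simp))
  | cons a l₁ ih =>
    intro l₂ r₁ r₂ t₁ t₂ h₁ h₂ ht₁ ht₂ h
    rcases l₂ with _ | ⟨a', l₂⟩
    · simp only [List.nil_append, List.cons_append, List.cons.injEq] at h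
      exact absurd (h.1 ▸ ht₂) (h₁ a (by simp))
    · simp only [List.cons_append, List.cons.injEq] at h
      obtain ⟨e1, e2⟩ := ih l₂ r₁ r₂ t₁ t₂ (fun x hx => h₁ x (by simp [hx]))
        (fun x hx => h₂ x (by simp [hx])) ht₁ ht₂ h.2
      exact ⟨by rw [h.1, e1], e2⟩

end Words

section Blocks

variable {V A : Type}

/-- The pattern made of blocks of variables, each followed by a terminal. -/
def render (Bs : List (List V × A)) : List (V ⊕ A) :=
  Bs.flatMap fun B => B.1.map Sum.inl ++ [Sum.inr B.2]

/-- The word obtained from a list of blocks. -/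
def ev (σ : V → List A) (Bs : List (List V × A)) : List A :=
  Bs.flatMap fun B => B.1.flatMap σ ++ [B.2]

theorem subst_append (σ : V → List A) (α β : List (V ⊕ A)) :
    subst σ (α ++ β) = subst σ α ++ subst σ β := by
  simp [subst]

theorem subst_map_inl (σ : V → List A) (l : List V) :
    subst σ (l.map Sum.inl) = l.flatMap σ := by
  simp [subst, List.flatMap_map]

theorem subst_render (σ : V → List A) (Bs : List (List V × A)) :
    subst σ (render Bs) = ev σ Bs := by
  induction Bs with
  | nil => simp [subst, render, ev]
  | cons B Bs ih =>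
    have e1 : render (B :: Bs) = (B.1.map Sum.inl ++ [Sum.inr B.2]) ++ render Bs := by
      simp [render]
    have e2 : ev σ (B :: Bs) = (B.1.flatMap σ ++ [B.2]) ++ ev σ Bs := by simp [ev]
    rw [e1, e2, subst_append, subst_append, ih, subst_map_inl]
    simp [subst]

theorem ev_cons (σ : V → List A) (B : List V × A) (Bs : List (List V × A)) :
    ev σ (B :: Bs) = B.1.flatMap σ ++ B.2 :: ev σ Bs := by simp [ev]

theorem ev_append (σ : V → List A) (Bs Cs : List (List V × A)) :
    ev σ (Bs ++ Cs) = ev σ Bs ++ ev σ Cs := by simp [ev]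

theorem ev_flatMap {ι : Type} (σ σ' : V → List A) (l : List ι) (F : ι → List (List V × A))
    (h : ∀ i ∈ l, ev σ' (F i) = ev σ (F i)) : ev σ' (l.flatMap F) = ev σ (l.flatMap F) := by
  induction l with
  | nil => simp [ev]
  | cons i l ih =>
    rw [List.flatMap_cons, ev_append, ev_append, h i (by simp),
      ih (fun j hj => h j (by simp [hj]))]

theorem countP_ev_ge (q : A → Prop) [DecidablePred q] (σ : V → List A)
    (Bs : List (List V × A)) (hB : ∀ B ∈ Bs, q B.2) :
    Bs.length ≤ (ev σ Bs).countP (fun a => decide (q a)) := by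
  induction Bs with
  | nil => simp
  | cons B Bs ih =>
    rw [ev_cons, List.countP_append, List.countP_cons_of_pos (by simpa using hB B (by simp))]
    have := ih (fun C hC => hB C (by simp [hC]))
    simp only [List.length_cons]
    omega

theorem countP_flatMap_zero (q : A → Prop) [DecidablePred q] (σ : V → List A)
    (hσ : ∀ z, ∀ a ∈ σ z, ¬ q a) (l : List V) :
    (l.flatMap σ).countP (fun a => decide (q a)) = 0 := by
  rw [List.countP_eq_zero]
  intro a ha
  obtain ⟨z, -, hz⟩ := List.mem_flatMap.1 ha
  simpa using hσ z a hz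

theorem countP_ev_eq (q : A → Prop) [DecidablePred q] (σ : V → List A)
    (hσ : ∀ z, ∀ a ∈ σ z, ¬ q a) (Bs : List (List V × A)) (hB : ∀ B ∈ Bs, q B.2) :
    (ev σ Bs).countP (fun a => decide (q a)) = Bs.length := by
  induction Bs with
  | nil => simp [ev]
  | cons B Bs ih =>
    rw [ev_cons, List.countP_append, List.countP_cons_of_pos (by simpa using hB B (by simp)),
      countP_flatMap_zero q σ hσ, ih (fun C hC => hB C (by simp [hC]))]
    simp

/-- If the values of `σ` avoid the terminals, every other parse agrees with `σ` blockwise. -/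
theorem rigid (q : A → Prop) (σ σ' : V → List A) (hσ : ∀ z, ∀ a ∈ σ z, ¬ q a)
    (Bs : List (List V × A)) (hB : ∀ B ∈ Bs, q B.2) (h : ev σ' Bs = ev σ Bs) :
    ∀ B ∈ Bs, B.1.flatMap σ' = B.1.flatMap σ := by
  classical
  induction Bs with
  | nil => simp
  | cons B Bs ih =>
    have hB' : ∀ C ∈ Bs, q C.2 := fun C hC => hB C (by simp [hC])
    have hq : q B.2 := hB B (by simp)
    have h1 := congrArg (List.countP (fun a => decide (q a))) h
    rw [countP_ev_eq q σ hσ _ hB, ev_cons, List.countP_append,
      List.countP_cons_of_pos (by simpa using hq)] at h1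
    have h2 := countP_ev_ge q σ' Bs hB'
    have h3 : (B.1.flatMap σ').countP (fun a => decide (q a)) = 0 := by
      simp only [List.length_cons] at h1
      omega
    rw [List.countP_eq_zero] at h3
    have h4 := countP_flatMap_zero q σ hσ B.1
    rw [List.countP_eq_zero] at h4
    rw [ev_cons, ev_cons] at h
    obtain ⟨e1, e2⟩ := split_at q _ _ _ _ _ _ (fun a ha => by simpa using h3 a ha)
      (fun a ha => by simpa using h4 a ha) hq hq h
    intro C hC
    rcases List.mem_cons.1 hC with rfl | hC
    · exact e1
    · exact ih hB' e2 C hC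

/-- Image of a pattern under a morphism sending variables to words of variables. -/
def pmap {Y : Type} (φ : V → List Y) (α : List (V ⊕ A)) : List (Y ⊕ A) :=
  α.flatMap (Sum.elim (fun z => (φ z).map Sum.inl) fun a => [Sum.inr a])

theorem subst_pmap {Y : Type} (φ : V → List Y) (τ : Y → List A) (α : List (V ⊕ A)) :
    subst τ (pmap φ α) = subst (fun z => (φ z).flatMap τ) α := by
  induction α with
  | nil => simp [subst, pmap]
  | cons s α ih =>
    have e1 : pmap φ (s :: α) =
      (Sum.elim (fun z => (φ z).map Sum.inl) (fun a => [Sum.inr a]) s) ++ pmap φ α := by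
      simp [pmap]
    have e2 : subst (fun z => (φ z).flatMap τ) (s :: α) =
      (Sum.elim (fun z => (φ z).flatMap τ) (fun a => [a]) s) ++
        subst (fun z => (φ z).flatMap τ) α := by
      simp [subst]
    rw [e1, e2, subst_append, ih]
    cases s with
    | inl z => simp [subst_map_inl]
    | inr a => simp [subst]

theorem lang_pmap_subset {Y : Type} (φ : V → List Y) (α : List (V ⊕ A)) :
    lang (pmap φ α) ⊆ lang α := by
  rintro _ ⟨τ, rfl⟩
  exact ⟨_, (subst_pmap φ τ α).symm⟩

theorem lang_rename {Y : Type} (ι : V → Y) (hι : Function.Injective ι) (α : List (V ⊕ A)) :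
    lang (pmap (fun z => [ι z]) α) = lang α := by
  apply Set.Subset.antisymm (lang_pmap_subset _ _)
  rintro _ ⟨σ, rfl⟩
  refine ⟨Function.extend ι σ (fun _ => []), ?_⟩
  rw [subst_pmap]
  congr 1
  funext z
  simp [hι.extend_apply]

theorem pmap_ne_nil {Y : Type} (φ : V → List Y) (α : List (V ⊕ A)) (a : A)
    (h : Sum.inr a ∈ α) : Sum.inr a ∈ pmap φ α :=
  List.mem_flatMap.2 ⟨Sum.inr a, h, by simp⟩

end Blocks

end Pool.Agent.P.MP_3f2786_lc
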