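import Mathlib
import Pool.Agent.P.MP_3f2786_lc.Defs
import Pool.Agent.P.MP_3f2786_lc.Words
import Pool.Agent.P.MP_3f2786_lc.Locking

set_option autoImplicit false

namespace Pool.Agent.P.MP_3f2786_lc

/-- The variables of the pattern. -/
inductive Var : Type
  | x | y | v | u | h1 | h2
  | w (i : ℕ) | r (i : ℕ) | s (i : ℕ) | p (i : ℕ)
  | g1 (i : ℕ) | g2 (i : ℕ) | f1 (i : ℕ) | f2 (i : ℕ)

open Var

/-- Coding of the variables. -/
def Var.enc : Var → ℕ × ℕ
  | x => (0, 0) | y => (1, 0) | v => (2, 0) | u => (3, 0) | h1 => (4, 0) | h2 => (5, 0)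
  | w i => (6, i) | r i => (7, i) | s i => (8, i) | p i => (9, i)
  | g1 i => (10, i) | g2 i => (11, i) | f1 i => (12, i) | f2 i => (13, i)

/-- Decoding of the variables. -/
def Var.dec : ℕ × ℕ → Var
  | (0, _) => x | (1, _) => y | (2, _) => v | (3, _) => u | (4, _) => h1 | (5, _) => h2
  | (6, i) => w i | (7, i) => r i | (8, i) => s i | (9, i) => p i
  | (10, i) => g1 i | (11, i) => g2 i | (12, i) => f1 i | (_, i) => f2 i

theorem Var.dec_enc (z : Var) : Var.dec (Var.enc z) = z := by cases z <;> rfl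

instance : Countable Var := (Function.LeftInverse.injective Var.dec_enc).countable

variable {A : Type}

/-- The blocks attached to the letter `b i`. -/
def seg (t : A) (b : ℕ → A) (i : ℕ) : List (List Var × A) :=
  [([p i, x, v, y, u, r i], b i), ([g1 i], t), ([p i, x, v, y, u, s i, r i], b i), ([g2 i], t),
    ([f1 i, r i, w i, w (i + 1), f2 i], t)]

/-- The initial blocks. -/
def base (t : A) (m : ℕ) : List (List Var × A) :=
  [([x, y, w 0, h1], t), ([x, v, y, u, w 0, h2], t), ([w m], t)]

/-- All blocks. -/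
def blocks (t : A) (b : ℕ → A) (m : ℕ) : List (List Var × A) :=
  base t m ++ (List.range m).flatMap (seg t b)

/-- A parse is good if every letter in the value of `x` occurs in the value of `v`, `y` or `u`. -/
def Good {Y : Type} (σ : Var → List Y) : Prop :=
  ∀ a ∈ σ x, a ∈ σ v ∨ a ∈ σ y ∨ a ∈ σ u

/-- The parse used when the letter `b l` occurs in the core. -/
def flex (σ : Var → List A) (l : ℕ) (U V : List A) (a : A) : Var → List A
  | x => [] | y => [] | v => [] | u => []
  | h1 => σ x ++ σ y ++ σ (w 0) ++ σ h1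
  | h2 => σ x ++ σ v ++ σ y ++ σ u ++ σ (w 0) ++ σ h2
  | w i => if i ≤ l then [] else σ (w i)
  | r i => if i = l then [] else σ (r i)
  | s i => if i = l then [] else σ (s i)
  | p i => if i = l then σ (p i) ++ U else σ (p i) ++ (σ x ++ σ v ++ σ y ++ σ u)
  | g1 i => if i = l then V ++ σ (r i) ++ [a] ++ σ (g1 i) else σ (g1 i)
  | g2 i => if i = l then V ++ σ (s i) ++ σ (r i) ++ [a] ++ σ (g2 i) else σ (g2 i)
  | f1 i => if i = l then σ (f1 i) ++ σ (r i) ++ σ (w i) else σ (f1 i)
  | f2 i => if i < l then σ (w i) ++ σ (w (i + 1)) ++ σ (f2 i) else σ (f2 i)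

theorem ev_flex (t : A) (b : ℕ → A) (m : ℕ) (σ : Var → List A) (l : ℕ) (hl : l < m)
    (U V : List A) (hUV : σ x ++ σ v ++ σ y ++ σ u = U ++ b l :: V) :
    ev (flex σ l U V (b l)) (blocks t b m) = ev σ (blocks t b m) := by
  have hK : ∀ Z : List A, σ x ++ (σ v ++ (σ y ++ (σ u ++ Z))) = U ++ b l :: (V ++ Z) := by
    intro Z
    have := congrArg (· ++ Z) hUV
    simpa using this
  rw [blocks, ev_append, ev_append]
  congr 1
  · simp [ev, base, flex, not_le.2 hl]
  · apply ev_flatMap
    intro i _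
    rcases lt_trichotomy i l with h | rfl | h
    · simp [ev, seg, flex, h, h.ne, h.le, Nat.succ_le_of_lt h]
    · simp [ev, seg, flex, hK]
    · have h1 : ¬ i ≤ l := by omega
      have h2 : ¬ i + 1 ≤ l := by omega
      have h3 : ¬ i < l := by omega
      simp [ev, seg, flex, h.ne', h1, h2, h3]

/-- The parse used when the core is over two letters. -/
def shift (σ : Var → List A) : Var → List A
  | x => []
  | y => σ x ++ σ y
  | v => []
  | u => σ v ++ σ u
  | z => σ z

theorem ev_shift (t : A) (b : ℕ → A) (m : ℕ) (σ : Var → List A)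
    (hc : σ y ++ σ v = σ v ++ σ y) :
    ev (shift σ) (blocks t b m) = ev σ (blocks t b m) := by
  have hK : ∀ Z : List A, σ y ++ (σ v ++ Z) = σ v ++ (σ y ++ Z) := by
    intro Z
    rw [← List.append_assoc, hc, List.append_assoc]
  rw [blocks, ev_append, ev_append]
  congr 1
  · simp [ev, base, shift, hK]
  · apply ev_flatMap
    intro i _
    simp [ev, seg, shift, hK]

theorem exists_good (c d t : A) (b : ℕ → A) (m : ℕ)
    (hall : ∀ a : A, a = c ∨ a = d ∨ ∃ i < m, b i = a) (σ : Var → List A) :
    ∃ σ' : Var → List A, Good σ' ∧ ev σ' (blocks t b m) = ev σ (blocks t b m) := by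
  by_cases h1 : ∃ a ∈ σ x ++ σ v ++ σ y ++ σ u, ∃ i < m, b i = a
  · obtain ⟨a, ha, l, hl, rfl⟩ := h1
    obtain ⟨U, V, hUV⟩ := List.append_of_mem ha
    exact ⟨flex σ l U V (b l), by intro a ha; simp [flex] at ha, ev_flex t b m σ l hl U V hUV⟩
  by_cases h2 : Good σ
  · exact ⟨σ, h2, rfl⟩
  refine ⟨shift σ, by intro a ha; simp [shift] at ha, ev_shift t b m σ ?_⟩
  simp only [Good, not_forall, not_or] at h2
  obtain ⟨a, hax, hav, hay, -⟩ := h2
  have hcd : ∀ e ∈ σ x ++ σ v ++ σ y ++ σ u, e = c ∨ e = d := by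
    intro e he
    rcases hall e with h | h | h
    · exact Or.inl h
    · exact Or.inr h
    · exact absurd ⟨e, he, h⟩ h1
  have hex : ∃ e : A, ∀ z ∈ σ v ++ σ y, z = e := by
    rcases hcd a (by simp [hax]) with rfl | rfl
    · refine ⟨d, fun z hz => ?_⟩
      rcases List.mem_append.1 hz with hz' | hz'
      · exact (hcd z (by simp [hz'])).resolve_left (fun h => hav (h ▸ hz'))
      · exact (hcd z (by simp [hz'])).resolve_left (fun h => hay (h ▸ hz'))
    · refine ⟨c, fun z hz => ?_⟩
      rcases List.mem_append.1 hz with hz' | hz'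
      · exact (hcd z (by simp [hz'])).resolve_right (fun h => hav (h ▸ hz'))
      · exact (hcd z (by simp [hz'])).resolve_right (fun h => hay (h ▸ hz'))
  obtain ⟨e, he⟩ := hex
  have hv : σ v = List.replicate (σ v).length e :=
    List.eq_replicate_iff.2 ⟨rfl, fun z hz => he z (by simp [hz])⟩
  have hy : σ y = List.replicate (σ y).length e :=
    List.eq_replicate_iff.2 ⟨rfl, fun z hz => he z (by simp [hz])⟩
  rw [hv, hy, List.replicate_append_replicate, List.replicate_append_replicate, Nat.add_comm]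

/-- The generic substitution. -/
def gen (c d : A) (n R : ℕ) : Var → List A
  | x => List.replicate n c ++ [c]
  | y => [c]
  | v => [d]
  | w i => List.replicate (n + 3 + i) d ++ [c]
  | r _ => List.replicate R c
  | s _ => [d]
  | _ => []

theorem gen_pinned (c d t : A) (hcd : c ≠ d) (b : ℕ → A) (m n : ℕ)
    (ht : t ≠ c ∧ t ≠ d) (hb : ∀ i, b i ≠ c ∧ b i ≠ d) (σ' : Var → List A)
    (h : ev σ' (blocks t b m) = ev (gen c d n (2 * (n + m + 5))) (blocks t b m)) :
    (σ' x).length = n + 1 ∧ (σ' v).length ≤ 1 ∧ (σ' y).length ≤ 1 ∧ (σ' u).length ≤ 1 := by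
  set R := 2 * (n + m + 5) with hR
  have hrig := rigid (fun a => a ≠ c ∧ a ≠ d) (gen c d n R) σ' (by
    intro z a ha
    cases z <;> simp only [gen, List.mem_append, List.mem_replicate, List.mem_singleton,
      List.not_mem_nil] at ha <;> tauto) (blocks t b m) (by
    intro B hB
    simp only [blocks, base, seg, List.mem_append, List.mem_cons, List.mem_flatMap,
      List.not_mem_nil, or_false] at hB
    rcases hB with (rfl | rfl | rfl) | ⟨i, -, rfl | rfl | rfl | rfl | rfl⟩ <;>
      first | exact ht | exact hb _) h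
  have hseg : ∀ i < m, ∀ B ∈ seg t b i, B.1.flatMap σ' = B.1.flatMap (gen c d n R) := by
    intro i hi B hB
    exact hrig B (List.mem_append_right _ (List.mem_flatMap.2 ⟨i, List.mem_range.2 hi, hB⟩))
  have hbase : ∀ B ∈ base t m, B.1.flatMap σ' = B.1.flatMap (gen c d n R) :=
    fun B hB => hrig B (List.mem_append_left _ hB)
  have hRrep : List.replicate R c = c :: List.replicate (R - 1) c := by
    rw [← List.replicate_succ]; congr 1
  have hr : ∀ i < m, σ' (r i) = List.replicate R c := by
    intro i hi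
    have e1 := hseg i hi ([p i, x, v, y, u, r i], b i) (by simp [seg])
    have e2 := hseg i hi ([p i, x, v, y, u, s i, r i], b i) (by simp [seg])
    simp only [List.flatMap_cons, List.flatMap_nil, gen, List.append_nil, List.nil_append,
      hRrep] at e1 e2
    rw [hRrep]
    refine (pair_pin hcd (σ' (p i) ++ σ' x ++ σ' v ++ σ' y ++ σ' u) (σ' (s i)) (σ' (r i)) []
      (List.replicate n c ++ [c] ++ [d]) (List.replicate (R - 1) c) ?_ ?_ (Or.inl rfl)).2
    · simpa using e1
    · simpa using e2
  have hw : ∀ k i, i + k = m → σ' (w i) = List.replicate (n + 3 + i) d ++ [c] := by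
    intro k
    induction k with
    | zero =>
      intro i hi
      have e := hbase ([w m], t) (by simp [base])
      obtain rfl : i = m := by omega
      simpa [gen] using e
    | succ k ih =>
      intro i hi
      have e := hseg i (by omega) ([f1 i, r i, w i, w (i + 1), f2 i], t) (by simp [seg])
      simp only [List.flatMap_cons, List.flatMap_nil, gen, List.append_nil, List.nil_append,
        hr i (by omega), ih (i + 1) (by omega)] at e
      have hrep : List.replicate (n + 3 + i) d = d :: List.replicate (n + 2 + i) d := by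
        rw [← List.replicate_succ]; congr 1; omega
      have e1 := left_pin hcd (σ' (f1 i))
        (σ' (w i) ++ (List.replicate (n + 3 + (i + 1)) d ++ [c]) ++ σ' (f2 i))
        (List.replicate (n + 2 + i) d ++ [c] ++ (List.replicate (n + 3 + (i + 1)) d ++ [c])) R
        (by simp; omega) (by rw [hrep] at e; simpa using e)
      refine right_pin hcd _ _ (σ' (f2 i)) (n + 3 + (i + 1)) (by simp) ?_
      rw [e1, hrep]
      simp
  have hw0 := hw m 0 (by omega)
  have e1 := hbase ([x, y, w 0, h1], t) (by simp [base])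
  have e2 := hbase ([x, v, y, u, w 0, h2], t) (by simp [base])
  simp only [List.flatMap_cons, List.flatMap_nil, gen, List.append_nil, List.nil_append,
    hw0] at e1 e2
  have k1 := right_pin hcd (σ' x ++ σ' y) (List.replicate n c ++ [c]) (σ' h1) (n + 3 + 0)
    (by simp) (by simpa using e1)
  have k2 := right_pin hcd (σ' x ++ σ' v ++ σ' y ++ σ' u) (List.replicate n c ++ [c] ++ [d])
    (σ' h2) (n + 3 + 0) (by simp) (by simpa using e2)
  obtain ⟨hx, hy⟩ := pair_pin hcd (σ' x) (σ' v) (σ' y) (σ' u) (List.replicate n c) [] k1 k2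
    (Or.inr rfl)
  have hlen := congrArg List.length k2
  rw [hx, hy] at hlen
  simp only [List.length_append, List.length_replicate, List.length_cons, List.length_nil] at hlen
  rw [hx, hy]
  simp only [List.length_append, List.length_replicate, List.length_cons, List.length_nil]
  exact ⟨trivial, by omega, by omega, by omega⟩

theorem length_flatMap_le {Y : Type} (τ : Y → List A) (l : List Y)
    (h : ∀ z ∈ l, (τ z).length ≤ 1) : (l.flatMap τ).length ≤ l.length := by
  induction l with
  | nil => simp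
  | cons z l ih =>
    have h1 := h z (by simp)
    have h2 := ih (fun z' hz' => h z' (by simp [hz']))
    simp only [List.flatMap_cons, List.length_append, List.length_cons]
    omega

theorem length_le_of_mem {Y : Type} (τ : Y → List A) (l : List Y) (z : Y) (hz : z ∈ l) :
    (τ z).length ≤ (l.flatMap τ).length := by
  obtain ⟨l₁, l₂, rfl⟩ := List.append_of_mem hz
  simp only [List.flatMap_append, List.flatMap_cons, List.length_append]
  omega

theorem lang_pmap_ne {Y : Type} (c d t : A) (hcd : c ≠ d) (b : ℕ → A) (m : ℕ)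
    (ht : t ≠ c ∧ t ≠ d) (hb : ∀ i, b i ≠ c ∧ b i ≠ d) (φ : Var → List Y) (hφ : Good φ) :
    lang (pmap φ (render (blocks t b m))) ≠ lang (render (blocks t b m)) := by
  intro h
  have hmem : subst (gen c d (φ x).length (2 * ((φ x).length + m + 5))) (render (blocks t b m)) ∈
      lang (pmap φ (render (blocks t b m))) := h ▸ ⟨_, rfl⟩
  obtain ⟨τ, hτ⟩ := hmem
  rw [subst_pmap, subst_render, subst_render] at hτ
  obtain ⟨h1, h2, h3, h4⟩ := gen_pinned c d t hcd b m _ ht hb _ hτ
  have := length_flatMap_le τ (φ x) (by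
    intro z hz
    rcases hφ z hz with hz | hz | hz
    · exact (length_le_of_mem τ _ z hz).trans h2
    · exact (length_le_of_mem τ _ z hz).trans h3
    · exact (length_le_of_mem τ _ z hz).trans h4)
  omega

theorem flatMap_tag {W : Type} [DecidableEq W] (w₀ : W) (F : W → List A) :
    ∀ (T : List W), T.Nodup → w₀ ∈ T →
      (T.flatMap fun w' => (F w').map fun a => (w', a)).flatMap
        (fun z : W × A => if z.1 = w₀ then [z.2] else []) = F w₀ := by
  have zero : ∀ T : List W, w₀ ∉ T →
      (T.flatMap fun w' => (F w').map fun a => (w', a)).flatMap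
        (fun z : W × A => if z.1 = w₀ then [z.2] else []) = [] := by
    intro T hT
    rw [List.flatMap_eq_nil_iff]
    intro z hz
    obtain ⟨w', hw', hz'⟩ := List.mem_flatMap.1 hz
    obtain ⟨a, -, rfl⟩ := List.mem_map.1 hz'
    have : w' ≠ w₀ := fun h => hT (h ▸ hw')
    simp [this]
  intro T
  induction T with
  | nil => simp
  | cons w' T ih =>
    intro hT hw
    rw [List.nodup_cons] at hT
    rw [List.flatMap_cons, List.flatMap_append]
    by_cases h : w' = w₀
    · subst h
      rw [zero T hT.1]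
      simp [List.flatMap_map]
    · have hw' : w₀ ∈ T := by
        rcases List.mem_cons.1 hw with h' | h'
        · exact absurd h'.symm h
        · exact h'
      rw [ih hT.2 hw']
      simp [List.flatMap_map, h]

theorem no_telltale (c d t : A) (b : ℕ → A) (m : ℕ)
    (hall : ∀ a : A, a = c ∨ a = d ∨ ∃ i < m, b i = a) (T : List (List A))
    (hT : ∀ w ∈ T, w ∈ lang (render (blocks t b m))) :
    ∃ φ : Var → List (List A × A), Good φ ∧ ∀ w ∈ T, w ∈ lang (pmap φ (render (blocks t b m))) := by
  classical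
  have h1 : ∀ w : List A, ∃ σ : Var → List A,
      Good σ ∧ (w ∈ T → subst σ (render (blocks t b m)) = w) := by
    intro w
    by_cases hw : w ∈ T
    · obtain ⟨σ, hσ⟩ := hT w hw
      obtain ⟨σ', h1, h2⟩ := exists_good c d t b m hall σ
      exact ⟨σ', h1, fun _ => by rw [subst_render, h2, ← subst_render, hσ]⟩
    · exact ⟨fun _ => [], by intro a ha; simp at ha, fun h => absurd h hw⟩
  choose σ hσ1 hσ2 using h1
  refine ⟨fun z => T.dedup.flatMap fun w' => (σ w' z).map fun a => (w', a), ?_, ?_⟩
  · intro z hz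
    obtain ⟨w', hw', hz'⟩ := List.mem_flatMap.1 hz
    obtain ⟨a, ha, rfl⟩ := List.mem_map.1 hz'
    rcases hσ1 w' a ha with h | h | h
    · exact Or.inl (List.mem_flatMap.2 ⟨w', hw', List.mem_map.2 ⟨a, h, rfl⟩⟩)
    · exact Or.inr (Or.inl (List.mem_flatMap.2 ⟨w', hw', List.mem_map.2 ⟨a, h, rfl⟩⟩))
    · exact Or.inr (Or.inr (List.mem_flatMap.2 ⟨w', hw', List.mem_map.2 ⟨a, h, rfl⟩⟩))
  · intro w hw
    refine ⟨fun z => if z.1 = w then [z.2] else [], ?_⟩
    rw [subst_pmap, ← hσ2 w hw]
    congr 1
    funext z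
    rw [hσ2 w hw]
    exact flatMap_tag w (fun w' => σ w' z) T.dedup T.nodup_dedup (List.mem_dedup.2 hw)

theorem main (A : Type) [Fintype A] (hA : 3 ≤ Fintype.card A) :
    ¬ ∃ S : List (List A) → List (ℕ ⊕ A),
      ∀ α : List (ℕ ⊕ A), α ≠ [] → ∀ t : ℕ → List A, Set.range t = lang α →
        ∃ (N : ℕ) (β : List (ℕ ⊕ A)), lang β = lang α ∧
          ∀ n, N ≤ n → S ((List.range n).map t) = β := by
  classical
  obtain ⟨c, d, t, hcd, hct, hdt⟩ := Fintype.two_lt_card_iff.1 (show 2 < Fintype.card A by omega)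
  let l : List A := (Finset.univ.filter fun a => a ≠ c ∧ a ≠ d).toList
  have hl : ∀ a, a ∈ l ↔ a ≠ c ∧ a ≠ d := by intro a; simp [l]
  let b : ℕ → A := fun i => l.getD i t
  have ht : t ≠ c ∧ t ≠ d := ⟨hct.symm, hdt.symm⟩
  have hb : ∀ i, b i ≠ c ∧ b i ≠ d := by
    intro i
    by_cases hi : i < l.length
    · simp only [b, List.getD_eq_getElem _ _ hi]
      exact (hl _).1 (List.getElem_mem hi)
    · simp only [b, List.getD_eq_default _ _ (not_lt.1 hi)]
      exact ht
  have hall : ∀ a : A, a = c ∨ a = d ∨ ∃ i < l.length, b i = a := by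
    intro a
    by_cases h1 : a = c
    · exact Or.inl h1
    by_cases h2 : a = d
    · exact Or.inr (Or.inl h2)
    obtain ⟨i, hi, hia⟩ := List.getElem_of_mem ((hl a).2 ⟨h1, h2⟩)
    exact Or.inr (Or.inr ⟨i, hi, by simp only [b, List.getD_eq_getElem _ _ hi, hia]⟩)
  set α₀ := render (blocks t b l.length) with hα₀
  have hterm : Sum.inr t ∈ α₀ := by simp [hα₀, render, blocks, base]
  obtain ⟨ι, hι⟩ := exists_injective_nat Var
  obtain ⟨κ, hκ⟩ := exists_injective_nat (List A × A)
  refine no_learner lang (fun α => α ≠ []) (pmap (fun z => [ι z]) α₀)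
    (List.ne_nil_of_mem (pmap_ne_nil _ _ t hterm)) ⟨_, fun _ => [], rfl⟩ ?_
  intro T hT
  rw [lang_rename ι hι] at hT ⊢
  obtain ⟨φ, hφ1, hφ2⟩ := no_telltale c d t b l.length hall T hT
  refine ⟨pmap (fun z => [κ z]) (pmap φ α₀),
    List.ne_nil_of_mem (pmap_ne_nil _ _ t (pmap_ne_nil _ _ t hterm)), ?_, ?_, ?_⟩
  · rw [lang_rename κ hκ]; exact hφ2
  · rw [lang_rename κ hκ]; exact lang_pmap_subset _ _
  · rw [lang_rename κ hκ]; exact lang_pmap_ne c d t hcd b _ ht hb φ hφ1

end Pool.Agent.P.MP_3f2786_lc
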